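import Pool.Agent.MTN.Stmts

/-! MTN, row PTK: integers of a number field in `Pts`. -/

set_option autoImplicit false

namespace Pool.Agent.MTN.H60

open Polynomial NumberField

theorem norm_le_house {k : Type} [Field k] [NumberField k] (φ : k →+* ℂ) (x : k) :
    ‖φ x‖ ≤ house x := by
  rw [house_eq_sup']
  have h := Finset.le_sup' (s := Finset.univ) (fun φ : k →+* ℂ => ‖φ x‖₊) (Finset.mem_univ φ)
  exact_mod_cast h

theorem ptk : PtkStmt := by
  intro k _ _ σ δ hδ
  set m := Module.finrank ℚ k with hm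
  refine ⟨max 1 (2 ^ m / δ ^ (m + 1)), fun a hH ha => ?_⟩
  have hH1 : 1 ≤ house (a : k) := le_trans (le_max_left _ _) hH
  have hH2 : 2 ^ m / δ ^ (m + 1) ≤ house (a : k) := le_trans (le_max_right _ _) hH
  have hx : IsIntegral ℤ (a : k) := a.2
  have hmap : (minpoly ℤ (a : k)).map (algebraMap ℤ ℚ) = minpoly ℚ (a : k) :=
    (minpoly.isIntegrallyClosed_eq_field_fractions' ℚ hx).symm
  refine ⟨minpoly ℤ (a : k), minpoly.ne_zero hx, ?_, fun i => ?_, ?_⟩
  · have h1 := minpoly.natDegree_le (A := ℚ) (a : k)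
    rw [← hmap, natDegree_map_eq_of_injective (algebraMap ℤ ℚ).injective_int] at h1
    exact h1
  · have h1 := Embeddings.coeff_bdd_of_norm_le (A := ℂ) (B := house (a : k))
      (fun φ => norm_le_house φ (a : k)) i
    rw [← hmap, coeff_map, eq_intCast, Int.norm_cast_rat, Int.norm_eq_abs, max_eq_left hH1] at h1
    refine h1.trans ?_
    have h2 : ((m.choose (m / 2) : ℕ) : ℝ) ≤ 2 ^ m := by
      exact_mod_cast Nat.choose_le_two_pow m (m / 2)
    have h3 : 2 ^ m ≤ δ ^ (m + 1) * house (a : k) := by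
      rw [div_le_iff₀ (by positivity)] at hH2
      linarith
    have h0 : 0 ≤ house (a : k) := by linarith
    calc house (a : k) ^ m * ((m.choose (m / 2) : ℕ) : ℝ)
        ≤ house (a : k) ^ m * (δ ^ (m + 1) * house (a : k)) := by
          gcongr
          exact h2.trans h3
      _ = (δ * house (a : k)) ^ (m + 1) := by ring
      _ ≤ ‖σ a‖ ^ (m + 1) := by gcongr
  · have h1 : aeval (a : k) (minpoly ℤ (a : k)) = 0 := minpoly.aeval _ _
    have h2 := Polynomial.aeval_algHom_apply σ.toIntAlgHom (a : k) (minpoly ℤ (a : k))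
    rw [h1, map_zero] at h2
    exact h2

end Pool.Agent.MTN.H60
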